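import Pool.Agent.Lib.MP_60c747_ag.Main

set_option autoImplicit false

/-!
Irreducibility of the strata of given `2`-rank in the family of canonical curves of genus four in
characteristic two.

A smooth non-hyperelliptic curve of genus four is, in its canonical embedding, the complete
intersection of a quadric and a cubic in projective three-space. We show that the pairs (quadric
form, cubic form) which define a smooth curve of `2`-rank exactly `f` form a nonempty irreducible
subset of the affine space of coefficient vectors, for each `f = 0, ..., 4`.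
-/

namespace Pool.Agent.Results.MP_60c747_ag.TwoRankStrata

open MvPolynomial

/-- Exponent vectors of total degree `d` in four variables. -/
abbrev Mon (d : ℕ) : Type := {m : Fin 4 → Fin (d + 1) // ∑ i, (m i : ℕ) = d}

/-- An exponent vector, as an index of the coefficients of a polynomial in four variables. -/
noncomputable def exponent (e : Fin 4 → ℕ) : Fin 4 →₀ ℕ := Finsupp.equivFunOnFinite.symm e

/-- The form of degree `d` in `x₀, x₁, x₂, x₃` with coefficient vector `a`. -/
noncomputable def form {k : Type*} [Field k] {d : ℕ} (a : Mon d → k) : MvPolynomial (Fin 4) k :=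
  ∑ m, monomial (exponent fun i => (m.1 i : ℕ)) (a m)

/-- The quadratic form of a point of the parameter space. -/
noncomputable def quadric {k : Type*} [Field k] (c : Mon 2 ⊕ Mon 3 → k) :
    MvPolynomial (Fin 4) k :=
  form fun m => c (Sum.inl m)

/-- The cubic form of a point of the parameter space. -/
noncomputable def cubic {k : Type*} [Field k] (c : Mon 2 ⊕ Mon 3 → k) :
    MvPolynomial (Fin 4) k :=
  form fun m => c (Sum.inr m)

/-- The curve `Q = F = 0` in projective three-space is smooth (a smooth complete intersection):
at every nonzero common zero of `Q` and `F` the two gradients are linearly independent. -/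
def IsSmooth {k : Type*} [Field k] (Q F : MvPolynomial (Fin 4) k) : Prop :=
  ∀ x : Fin 4 → k, x ≠ 0 → eval x Q = 0 → eval x F = 0 →
    ∀ s t : k, (∀ i, s * eval x (pderiv i Q) + t * eval x (pderiv i F) = 0) → s = 0 ∧ t = 0

/-- The Hasse-Witt matrix in characteristic two: its `(i, j)` entry is the coefficient of the
monomial `x₀ x₁ x₂ x₃ xᵢ² / xⱼ` in `Q F`. For the curve `C : Q = F = 0` in projective three-space
the Frobenius map of `H¹(C, O_C) = H³(ℙ³, O(-5))` sends the basis vector
`eᵢ = 1 / (x₀ x₁ x₂ x₃ xᵢ)` to `Q F / (x₀ x₁ x₂ x₃ xᵢ)² = ∑ⱼ hasseWitt Q F i j • eⱼ`. -/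
noncomputable def hasseWitt {k : Type*} [Field k] (Q F : MvPolynomial (Fin 4) k) :
    Matrix (Fin 4) (Fin 4) k :=
  fun i j => coeff
    (exponent fun l => 1 + (if l = i then 2 else 0) - (if l = j then 1 else 0)) (Q * F)

/-- The matrix of the `m`-th power of the Frobenius-semilinear map `eᵢ ↦ ∑ⱼ A i j • eⱼ`
(characteristic two): `iter A (m + 1) = (iter A m)^(2) A`, where `^(2)` squares all entries. -/
def iter {k : Type*} [Field k] (A : Matrix (Fin 4) (Fin 4) k) : ℕ → Matrix (Fin 4) (Fin 4) k
  | 0 => 1
  | m + 1 => (iter A m).map (fun x => x ^ 2) * A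

/-- The `2`-rank: the dimension of the stable part of Frobenius on the four-dimensional space
`H¹(C, O_C)`, i.e. the rank of its fourth iterate. -/
noncomputable def twoRank {k : Type*} [Field k] (Q F : MvPolynomial (Fin 4) k) : ℕ :=
  (iter (hasseWitt Q F) 4).rank

/-- The stratum: pairs (quadratic form, cubic form) whose common zero locus in projective
three-space is a smooth curve with `2`-rank exactly `f`. -/
def Stratum (k : Type*) [Field k] (f : ℕ) : Set (Mon 2 ⊕ Mon 3 → k) :=
  {c | IsSmooth (quadric c) (cubic c) ∧ twoRank (quadric c) (cubic c) = f}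

/-- Irreducibility in the Zariski topology of a subset `T` of an affine space: `T` is nonempty,
and if a product of two polynomials vanishes on `T` then one of the factors does (equivalently,
`T` is not contained in the union of two closed sets neither of which contains it). -/
def IsIrreducibleSet {k σ : Type*} [Field k] (T : Set (σ → k)) : Prop :=
  T.Nonempty ∧ ∀ G H : MvPolynomial σ k, (∀ x ∈ T, eval x (G * H) = 0) →
    (∀ x ∈ T, eval x G = 0) ∨ (∀ x ∈ T, eval x H = 0)

private theorem iter_eq {k : Type*} [Field k] (A : Matrix (Fin 4) (Fin 4) k) (m : ℕ) :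
    iter A m = Lib.MP_60c747_ag.it A m := by
  induction m with
  | zero => rfl
  | succ m ih => rw [iter, ih]; rfl

private theorem stratum_eq (k : Type*) [Field k] (f : ℕ) :
    Stratum k f = Lib.MP_60c747_ag.S k f := by
  ext c
  show (_ ∧ (iter _ 4).rank = f) ↔ (_ ∧ (Lib.MP_60c747_ag.it _ 4).rank = f)
  rw [iter_eq]
  rfl

/-- Let `k` be an algebraically closed field of characteristic two and `0 ≤ f ≤ 4`. The pairs of
a quadratic and a cubic form in four variables which define a smooth curve in projective
three-space with `2`-rank `f` form a nonempty irreducible set. -/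
theorem result (k : Type*) [Field k] [IsAlgClosed k] [CharP k 2] (f : ℕ) (hf : f ≤ 4) :
    IsIrreducibleSet (Stratum k f) := by
  rw [stratum_eq]
  exact ⟨Lib.MP_60c747_ag.nonempty_S hf, Lib.MP_60c747_ag.irr_S hf⟩

end Pool.Agent.Results.MP_60c747_ag.TwoRankStrata
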